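import Pool.Agent.helper20.SOL.Spec

set_option autoImplicit false

namespace Pool.Agent.SOL

open Pool.Agent.helper54.SOG Finset

theorem LX3_flp_i {n : ℕ} (x : Vec n) (i j : Fin n) (h : j ≠ i) : flp j x i = x i := by
  unfold flp
  rw [if_neg (fun h' => h h'.symm)]

theorem LX3_swp_i {n : ℕ} (x : Vec n) (i a b : Fin n) (ha : a ≠ i) (hb : b ≠ i) :
    swp a b x i = x i := by
  unfold swp
  rw [Equiv.swap_apply_of_ne_of_ne ha.symm hb.symm]

theorem LX3_three {n : ℕ} (x : Vec n) (a b c : Fin n) (hab : a ≠ b) (hca : c ≠ a) (hcb : c ≠ b) :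
    swp b c (swp a b (swp c a x)) = swp a b x := by
  funext j
  unfold swp
  congr 1
  by_cases h1 : j = a
  · subst h1
    rw [Equiv.swap_apply_of_ne_of_ne hab hca.symm, Equiv.swap_apply_left,
      Equiv.swap_apply_of_ne_of_ne hcb.symm hab.symm]
  · by_cases h2 : j = b
    · subst h2
      rw [Equiv.swap_apply_left, Equiv.swap_apply_of_ne_of_ne hca hcb, Equiv.swap_apply_left,
        Equiv.swap_apply_right]
    · by_cases h3 : j = c
      · subst h3
        rw [Equiv.swap_apply_right, Equiv.swap_apply_right, Equiv.swap_apply_right,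
          Equiv.swap_apply_of_ne_of_ne h1 h2]
      · rw [Equiv.swap_apply_of_ne_of_ne h2 h3, Equiv.swap_apply_of_ne_of_ne h1 h2,
          Equiv.swap_apply_of_ne_of_ne h3 h1]

theorem LX3_eqabs {n : ℕ} (x : Vec n) (a b : Fin n) (hab : a ≠ b) (h : |x a| = |x b|) :
    swp a b x = x ∨ swp a b x = flp a (flp b x) := by
  rcases abs_eq_abs.mp h with h1 | h1
  · left
    funext j
    unfold swp
    by_cases ha : j = a
    · subst ha
      rw [Equiv.swap_apply_left, h1]
    · by_cases hb : j = b
      · subst hb
        rw [Equiv.swap_apply_right, h1]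
      · rw [Equiv.swap_apply_of_ne_of_ne ha hb]
  · right
    funext j
    unfold swp flp
    by_cases ha : j = a
    · subst ha
      rw [Equiv.swap_apply_left, if_pos rfl, if_neg hab, h1, neg_neg]
    · by_cases hb : j = b
      · subst hb
        rw [Equiv.swap_apply_right, if_neg ha, if_pos rfl, h1]
      · rw [Equiv.swap_apply_of_ne_of_ne ha hb, if_neg ha, if_neg hb]

theorem LX3_swap (hCNT : CNT_stmt) (n t s : ℕ) (M : Type) (g : Vec n → M) (i : Fin n) (w v : ℤ)
    (hf : ∀ x ∈ TD n t s, x i = w → ∀ j, j ≠ i → g (flp j x) = g x)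
    (hs : ∀ x ∈ TD n t s, x i = w → ∀ a b, a ≠ i → b ≠ i → |x a| = v → |x b| ≠ v →
      g (swp a b x) = g x)
    (hc : ∀ x ∈ TD n t s, x i = w → ∀ a b, a ≠ i → b ≠ i → |x a| ≠ v → |x b| ≠ v →
      |x a| ≠ |x b| → ∃ c, c ≠ i ∧ |x c| = v)
    (x : Vec n) (hx : x ∈ TD n t s) (hxi : x i = w) (a b : Fin n) (ha : a ≠ i) (hb : b ≠ i) :
    g (swp a b x) = g x := by
  obtain ⟨-, -, -, c4, c5, -, -, -⟩ := hCNT
  by_cases hab : a = b
  · subst hab
    congr 1
    funext j
    unfold swp
    rw [Equiv.swap_self]
    rfl
  by_cases h0 : |x a| = |x b|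
  · rcases LX3_eqabs x a b hab h0 with h1 | h1
    · rw [h1]
    · rw [h1, hf (flp b x) (c4 n t s x b hx) (by rw [LX3_flp_i x i b hb, hxi]) a ha,
        hf x hx hxi b hb]
  by_cases h1 : |x a| = v
  · exact hs x hx hxi a b ha hb h1 (fun h2 => h0 (h1.trans h2.symm))
  by_cases h2 : |x b| = v
  · have h3 := hs x hx hxi b a hb ha h2 h1
    have h4 : swp a b x = swp b a x := by
      unfold swp
      rw [Equiv.swap_comm]
    rw [h4, h3]
  obtain ⟨c, hci, hcv⟩ := hc x hx hxi a b ha hb h1 h2 h0
  have hca : c ≠ a := fun h => h1 (h ▸ hcv)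
  have hcb : c ≠ b := fun h => h2 (h ▸ hcv)
  rw [← LX3_three x a b c hab hca hcb]
  have m1 : swp c a x ∈ TD n t s := c5 n t s x c a hx
  have m2 : swp a b (swp c a x) ∈ TD n t s := c5 n t s _ a b m1
  have i1 : swp c a x i = w := by rw [LX3_swp_i x i c a hci ha, hxi]
  have i2 : swp a b (swp c a x) i = w := by rw [LX3_swp_i _ i a b ha hb, i1]
  have e1 : swp c a x a = x c := by
    unfold swp
    rw [Equiv.swap_apply_right]
  have e2 : swp c a x b = x b := by
    unfold swp
    rw [Equiv.swap_apply_of_ne_of_ne hcb.symm (fun h => hab h.symm)]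
  have e3 : swp c a x c = x a := by
    unfold swp
    rw [Equiv.swap_apply_left]
  have e4 : swp a b (swp c a x) b = x c := by
    show swp c a x (Equiv.swap a b b) = x c
    rw [Equiv.swap_apply_right, e1]
  have e5 : swp a b (swp c a x) c = x a := by
    show swp c a x (Equiv.swap a b c) = x a
    rw [Equiv.swap_apply_of_ne_of_ne hca hcb, e3]
  rw [hs (swp a b (swp c a x)) m2 i2 b c hb hci (by rw [e4]; exact hcv) (by rw [e5]; exact h1),
    hs (swp c a x) m1 i1 a b ha hb (by rw [e1]; exact hcv) (by rw [e2]; exact h2),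
    hs x hx hxi c a hci ha hcv h1]

theorem LX3_sign (hCNT : CNT_stmt) (n t s : ℕ) (M : Type) (g : Vec n → M) (i : Fin n) (w : ℤ)
    (hf : ∀ x ∈ TD n t s, x i = w → ∀ j, j ≠ i → g (flp j x) = g x) (x' : Vec n)
    (hxi' : x' i = w) : ∀ m : ℕ, ∀ x ∈ TD n t s, x i = w → (∀ j, |x j| = |x' j|) →
      (univ.filter fun j => x j ≠ x' j).card = m → g x = g x' := by
  intro m
  induction m using Nat.strong_induction_on with
  | _ m ih =>
    intro x hx hxi habs hm
    by_cases h0 : ∀ j, x j = x' j
    · rw [funext h0]
    · push Not at h0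
      obtain ⟨j, hj⟩ := h0
      have hji : j ≠ i := by
        rintro rfl
        exact hj (hxi.trans hxi'.symm)
      have hneg : x j = -x' j := by
        rcases abs_eq_abs.mp (habs j) with h | h
        · exact absurd h hj
        · exact h
      have c4 := hCNT.2.2.2.1
      have hy : flp j x ∈ TD n t s := c4 n t s x j hx
      have hyi : flp j x i = w := by rw [LX3_flp_i x i j hji, hxi]
      have hyj : flp j x j = x' j := by
        unfold flp
        rw [if_pos rfl, hneg, neg_neg]
      have hyk : ∀ k, k ≠ j → flp j x k = x k := by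
        intro k hk
        unfold flp
        rw [if_neg hk]
      have hyabs : ∀ k, |flp j x k| = |x' k| := by
        intro k
        by_cases hk : k = j
        · rw [hk, hyj]
        · rw [hyk k hk, habs k]
      have hlt : (univ.filter fun k => flp j x k ≠ x' k).card < m := by
        rw [← hm]
        apply Finset.card_lt_card
        rw [Finset.ssubset_iff_of_subset]
        · exact ⟨j, by simp [hj], by simp [hyj]⟩
        · intro k hk
          rw [Finset.mem_filter] at hk ⊢
          refine ⟨Finset.mem_univ _, ?_⟩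
          by_cases hkj : k = j
          · rw [hkj] at hk
            exact absurd hyj hk.2
          · rw [hyk k hkj] at hk
            exact hk.2
      rw [← hf x hx hxi j hji]
      exact ih _ hlt (flp j x) hy hyi hyabs rfl

theorem LX3_cnt (hCNT : CNT_stmt) (n t s : ℕ) (x x' : Vec n) (hx : x ∈ TD n t s)
    (hx' : x' ∈ TD n t s) (a : Fin n) : cnt x (|x' a|) = cnt x' (|x' a|) := by
  have c1 := hCNT.1 n x hx.1
  have c1' := hCNT.1 n x' hx'.1
  have h1 : |x' a| = 0 ∨ |x' a| = 1 ∨ |x' a| = 2 := by
    have h2 := hx'.1 a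
    have h3 := abs_nonneg (x' a)
    omega
  rcases h1 with h | h | h
  · rw [h]
    have := hx.2.1
    have := hx.2.2
    have := hx'.2.1
    have := hx'.2.2
    omega
  · rw [h, hx.2.2, hx'.2.2]
  · rw [h, hx.2.1, hx'.2.1]

/-- Connectivity of the orbits. -/
theorem LX3 (hCNT : CNT_stmt) : LX3_stmt := by
  intro n t s M g i w v hf hs hc
  have key : ∀ m : ℕ, ∀ x ∈ TD n t s, ∀ x' ∈ TD n t s, x i = w → x' i = w →
      (univ.filter fun j => |x j| ≠ |x' j|).card = m → g x = g x' := by
    intro m
    induction m using Nat.strong_induction_on with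
    | _ m ih =>
      intro x hx x' hx' hxi hxi' hm
      by_cases h0 : ∀ j, |x j| = |x' j|
      · exact LX3_sign hCNT n t s M g i w hf x' hxi' _ x hx hxi h0 rfl
      · push Not at h0
        obtain ⟨a, ha⟩ := h0
        have hai : a ≠ i := by
          rintro rfl
          exact ha (by rw [hxi, hxi'])
        have hcnt := LX3_cnt hCNT n t s x x' hx hx' a
        have hb : ∃ b, |x b| = |x' a| ∧ |x' b| ≠ |x' a| := by
          by_contra hcon
          push Not at hcon
          have hlt : cnt x (|x' a|) < cnt x' (|x' a|) := by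
            unfold cnt
            apply Finset.card_lt_card
            rw [Finset.ssubset_iff_of_subset]
            · exact ⟨a, by simp, by simp [ha]⟩
            · intro k hk
              rw [Finset.mem_filter] at hk ⊢
              exact ⟨Finset.mem_univ _, hcon k hk.2⟩
          omega
        obtain ⟨b, hb1, hb2⟩ := hb
        have hbi : b ≠ i := by
          rintro rfl
          exact hb2 (by rw [← hb1, hxi, hxi'])
        have hab : a ≠ b := by
          rintro rfl
          exact hb2 rfl
        have c5 := hCNT.2.2.2.2.1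
        have hy : swp a b x ∈ TD n t s := c5 n t s x a b hx
        have hyi : swp a b x i = w := by rw [LX3_swp_i x i a b hai hbi, hxi]
        have hya : swp a b x a = x b := by
          unfold swp
          rw [Equiv.swap_apply_left]
        have hyk : ∀ k, k ≠ a → k ≠ b → swp a b x k = x k := by
          intro k hk hk'
          unfold swp
          rw [Equiv.swap_apply_of_ne_of_ne hk hk']
        have hlt : (univ.filter fun k => |swp a b x k| ≠ |x' k|).card < m := by
          rw [← hm]
          apply Finset.card_lt_card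
          rw [Finset.ssubset_iff_of_subset]
          · exact ⟨a, by simp [ha], by simp [hya, hb1]⟩
          · intro k hk
            rw [Finset.mem_filter] at hk ⊢
            refine ⟨Finset.mem_univ _, ?_⟩
            by_cases hka : k = a
            · rw [hka]; exact ha
            · by_cases hkb : k = b
              · rw [hkb, hb1]
                exact fun h => hb2 h.symm
              · rw [hyk k hka hkb] at hk
                exact hk.2
        rw [← LX3_swap hCNT n t s M g i w v hf hs hc x hx hxi a b hai hbi]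
        exact ih _ hlt (swp a b x) hy x' hx' hyi hxi' rfl
  intro x hx x' hx' hxi hxi'
  exact key _ x hx x' hx' hxi hxi' rfl

end Pool.Agent.SOL
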