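import Pool.Agent.helper20.SOL.Spec

set_option autoImplicit false

namespace Pool.Agent.SOL

open Pool.Agent.helper54.SOG Finset

theorem NED_pt (a b : ℤ) (ha : |a| ≤ 1) (hb : |b| ≤ 1) (hab : |a - b| ≤ 1) :
    a * a + b * b - a * b ≤ 1 := by
  rw [abs_le] at ha hb hab
  obtain ⟨h1, h2⟩ := ha
  obtain ⟨h3, h4⟩ := hb
  obtain ⟨h5, h6⟩ := hab
  have ha : a = -1 ∨ a = 0 ∨ a = 1 := by omega
  have hb : b = -1 ∨ b = 0 ∨ b = 1 := by omega
  rcases ha with rfl | rfl | rfl <;> rcases hb with rfl | rfl | rfl <;> omega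

theorem NED_even {n : ℕ} (x : Vec n) (hx : ∀ i, |x i| ≤ 2) (h1 : cnt x 1 = 0) (i : Fin n) :
    (2 : ℤ) ∣ x i := by
  have h2 : |x i| ≠ 1 := by
    intro h
    unfold cnt at h1
    rw [Finset.card_eq_zero, Finset.filter_eq_empty_iff] at h1
    exact h1 (Finset.mem_univ i) h
  have h3 := hx i
  rw [abs_le] at h3
  have h4 : x i ≠ 1 := fun h => h2 (by rw [h]; rfl)
  have h5 : x i ≠ -1 := fun h => h2 (by rw [h]; rfl)
  omega

/-- Graphs without edges. -/
theorem NED (hCNT : CNT_stmt) : NED_stmt := by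
  refine ⟨?_, ?_⟩
  · intro n k x y _ hx hy hxy
    have hdp := VA_dp hx hy hxy
    have h1 : ∑ i, (x i * x i + y i * y i - x i * y i) ≤ ∑ _i : Fin n, (1 : ℤ) := by
      apply Finset.sum_le_sum
      intro i _
      exact NED_pt (x i) (y i) (hx.1 i) (hy.1 i) (hxy.1 i)
    rw [Finset.sum_sub_distrib, Finset.sum_add_distrib] at h1
    have e1 : ∑ i, x i * x i = 2 * k := hx.2.2
    have e2 : ∑ i, y i * y i = 2 * k := hy.2.2
    have e3 : ∑ i, x i * y i = k := hdp
    rw [e1, e2, e3] at h1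
    simp only [Finset.sum_const, Finset.card_univ, Fintype.card_fin, smul_eq_mul,
      mul_one] at h1
    simp at h1
    omega
  · intro n k x y hk hx hy hxy
    have hdp := VD_dp hx hy hxy
    have c2 := hCNT.2.1
    obtain ⟨hx1, hx2, hx3⟩ := (c2 n k x).1 hx
    obtain ⟨hy1, hy2, hy3⟩ := (c2 n k y).1 hy
    have hcase : k % 4 = 0 ∨ k % 2 = 1 ∨ k % 4 = 2 := by omega
    rcases hcase with h | h | h
    · left
      exact ⟨h, by omega⟩
    · right; left
      exact ⟨h, by omega⟩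
    · right; right
      refine ⟨h, ?_⟩
      by_contra hcon
      have s1 : cnt x 1 = 0 := by omega
      have s2 : cnt y 1 = 0 := by omega
      have hd : (4 : ℤ) ∣ dp x y := by
        unfold dp
        apply Finset.dvd_sum
        intro i _
        obtain ⟨a, ha⟩ := NED_even x hx1 s1 i
        obtain ⟨b, hb⟩ := NED_even y hy1 s2 i
        exact ⟨a * b, by rw [ha, hb]; ring⟩
      rw [hdp] at hd
      omega

end Pool.Agent.SOL
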