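import Pool.Agent.helper1.SOL.SpecN

/-!
# Row `sol:G2S`
-/

set_option autoImplicit false

namespace Pool.Agent.SOL

open Pool.Agent.helper54.SOG Finset

open scoped BigOperators

/-- the twelve roots -/
def G2S_L : Finset (Vec 3) :=
  {![1, -1, 0], ![-1, 1, 0], ![1, 0, -1], ![-1, 0, 1], ![0, 1, -1], ![0, -1, 1],
   ![2, -1, -1], ![-2, 1, 1], ![-1, 2, -1], ![1, -2, 1], ![-1, -1, 2], ![1, 1, -2]}

theorem G2S_key : ∀ a ∈ Finset.Icc (-2 : ℤ) 2, ∀ b ∈ Finset.Icc (-2 : ℤ) 2,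
    ∀ c ∈ Finset.Icc (-2 : ℤ) 2, a + b + c = 0 →
    (a * a + b * b + c * c = 2 ∨ a * a + b * b + c * c = 6) → ![a, b, c] ∈ G2S_L := by
  decide +kernel

theorem G2S_key2 : ∀ x ∈ G2S_L, ∑ i, x i = 0 ∧ (dp x x = 2 ∨ dp x x = 6) := by
  decide +kernel

theorem G2S_bd (a : ℤ) (h : a * a ≤ 6) : a ∈ Finset.Icc (-2 : ℤ) 2 := by
  rw [Finset.mem_Icc]
  constructor <;> nlinarith

theorem G2S_mem (x : Vec 3) : x ∈ RG2 ↔ x ∈ G2S_L := by
  constructor
  · rintro ⟨h0, h1⟩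
    have hs : x 0 + x 1 + x 2 = 0 := by
      rw [Fin.sum_univ_three] at h0; exact h0
    have hd : dp x x = x 0 * x 0 + x 1 * x 1 + x 2 * x 2 := by
      unfold dp; rw [Fin.sum_univ_three]
    have hx : x = ![x 0, x 1, x 2] := by
      funext i; fin_cases i <;> rfl
    rw [hd] at h1
    have h6 : x 0 * x 0 + x 1 * x 1 + x 2 * x 2 ≤ 6 := by
      rcases h1 with h | h <;> omega
    have p0 := mul_self_nonneg (x 0)
    have p1 := mul_self_nonneg (x 1)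
    have p2 := mul_self_nonneg (x 2)
    rw [hx]
    exact G2S_key _ (G2S_bd _ (by linarith)) _ (G2S_bd _ (by linarith)) _
      (G2S_bd _ (by linarith)) hs h1
  · exact fun h => G2S_key2 x h

theorem G2S_RG2 : RG2 = (G2S_L : Set (Vec 3)) := by
  ext x; rw [G2S_mem]; simp

theorem G2S_img {n : ℕ} (R : Set (Vec n)) (k : ℕ) :
    sosSums (cv '' R) k = cv '' sosSums R k := by
  classical
  have hadd : ∀ a b : Vec n, cv (a + b) = cv a + cv b := by
    intro a b; funext i; simp [cv]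
  have hz : cv (0 : Vec n) = 0 := by
    funext i; simp [cv]
  have hsum : ∀ S : Finset (Vec n), cv (∑ a ∈ S, a) = ∑ a ∈ S, cv a := by
    intro S
    induction S using Finset.induction_on with
    | empty => simp [hz]
    | insert a s ha ih => rw [Finset.sum_insert ha, Finset.sum_insert ha, hadd, ih]
  ext v
  constructor
  · rintro ⟨S, hc, ⟨h1, h2⟩, rfl⟩
    have hp : ∀ a ∈ S, ∃ b ∈ R, cv b = a := fun a ha => h1 a ha
    choose! g hgR hg using hp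
    have hinj : Set.InjOn g S := by
      intro a ha b hb hab
      rw [← hg a ha, ← hg b hb, hab]
    refine ⟨∑ a ∈ S.image g, a, ⟨S.image g, ?_, ⟨?_, ?_⟩, rfl⟩, ?_⟩
    · rw [Finset.card_image_of_injOn hinj, hc]
    · intro b hb
      obtain ⟨a, ha, rfl⟩ := Finset.mem_image.1 hb
      exact hgR a ha
    · intro b hb b' hb' hne
      obtain ⟨a, ha, rfl⟩ := Finset.mem_image.1 hb
      obtain ⟨a', ha', rfl⟩ := Finset.mem_image.1 hb'
      have hne' : a ≠ a' := fun h => hne (by rw [h])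
      obtain ⟨q1, q2, q3⟩ := h2 a ha a' ha' hne'
      refine ⟨?_, ?_, ?_⟩
      · intro h
        apply q1
        rw [← hg a ha, ← hg a' ha', ← hadd, h, hz]
      · intro h
        apply q2
        exact ⟨_, h, by rw [hadd, hg a ha, hg a' ha']⟩
      · intro h
        apply q3
        exact ⟨_, h, by rw [cv_sub, hg a ha, hg a' ha']⟩
    · rw [hsum, Finset.sum_image hinj]
      exact Finset.sum_congr rfl fun a ha => hg a ha
  · rintro ⟨w, ⟨S, hc, ⟨h1, h2⟩, rfl⟩, rfl⟩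
    have hinj : Function.Injective (cv (n := n)) := fun a b h => cv_inj h
    have hm : ∀ a : Vec n, cv a ∈ cv '' R ↔ a ∈ R := fun a => by
      constructor
      · rintro ⟨b, hb, hab⟩
        rwa [← hinj hab]
      · intro h; exact ⟨a, h, rfl⟩
    refine ⟨S.image cv, ?_, ⟨?_, ?_⟩, ?_⟩
    · rw [Finset.card_image_of_injective _ hinj, hc]
    · intro b hb
      obtain ⟨a, ha, rfl⟩ := Finset.mem_image.1 hb
      exact ⟨a, h1 a ha, rfl⟩
    · intro b hb b' hb' hne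
      obtain ⟨a, ha, rfl⟩ := Finset.mem_image.1 hb
      obtain ⟨a', ha', rfl⟩ := Finset.mem_image.1 hb'
      have hne' : a ≠ a' := fun h => hne (by rw [h])
      obtain ⟨q1, q2, q3⟩ := h2 a ha a' ha' hne'
      refine ⟨?_, ?_, ?_⟩
      · intro h
        apply q1
        apply hinj
        rw [hadd, h, hz]
      · rw [← hadd, hm]; exact q2
      · rw [← cv_sub, hm]; exact q3
    · rw [Finset.sum_image (fun a _ b _ h => hinj h), hsum]

theorem G2S_one {A : Type*} [AddCommGroup A] (R : Set A) : sosSums R 1 = R := by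
  ext v
  constructor
  · rintro ⟨S, hc, ⟨h1, -⟩, rfl⟩
    obtain ⟨a, rfl⟩ := Finset.card_eq_one.1 hc
    rw [Finset.sum_singleton]
    exact h1 a (Finset.mem_singleton_self a)
  · intro h
    refine ⟨{v}, Finset.card_singleton v, ⟨?_, ?_⟩, Finset.sum_singleton _ _⟩
    · intro a ha
      rw [Finset.mem_singleton.1 ha]; exact h
    · intro a ha b hb hab
      exact absurd ((Finset.mem_singleton.1 ha).trans (Finset.mem_singleton.1 hb).symm) hab

theorem G2S_d1 : ∀ i j : Fin 3, i ≠ j → (Pi.single i 1 - Pi.single j 1 : Vec 3) ∈ G2S_L := by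
  decide +kernel

theorem G2S_d2 : ∀ i j k : Fin 3, i ≠ j → i ≠ k → j ≠ k →
    (Pi.single i 2 - Pi.single j 1 - Pi.single k 1 : Vec 3) ∈ G2S_L ∧
    (Pi.single i (-2) - Pi.single j (-1) - Pi.single k (-1) : Vec 3) ∈ G2S_L := by
  decide +kernel

theorem G2S_d3 : ∀ x ∈ G2S_L, (∃ i j : Fin 3, i ≠ j ∧ x = Pi.single i 1 - Pi.single j 1) ∨
    ∃ i j k : Fin 3, i ≠ j ∧ i ≠ k ∧ j ≠ k ∧
      (x = Pi.single i 2 - Pi.single j 1 - Pi.single k 1 ∨
       x = Pi.single i (-2) - Pi.single j (-1) - Pi.single k (-1)) := by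
  decide +kernel

theorem G2S_cvs {n : ℕ} (i : Fin n) (a : ℤ) :
    cv (Pi.single i a : Vec n) = Pi.single i (a : ℝ) := by
  funext t
  unfold cv
  rcases eq_or_ne t i with rfl | h
  · simp
  · simp [Pi.single_eq_of_ne h]

theorem G2S_roots : rootsG2 = cv '' RG2 := by
  ext v
  constructor
  · rintro (⟨i, j, hij, rfl⟩ | ⟨i, j, k, hij, hik, hjk, s, hs, rfl⟩)
    · refine ⟨Pi.single i 1 - Pi.single j 1, (G2S_mem _).2 (G2S_d1 i j hij), ?_⟩
      rw [cv_sub, G2S_cvs, G2S_cvs]; simp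
    · rcases hs with rfl | rfl
      · refine ⟨Pi.single i 2 - Pi.single j 1 - Pi.single k 1,
          (G2S_mem _).2 (G2S_d2 i j k hij hik hjk).1, ?_⟩
        rw [cv_sub, cv_sub, G2S_cvs, G2S_cvs, G2S_cvs]; norm_num
      · refine ⟨Pi.single i (-2) - Pi.single j (-1) - Pi.single k (-1),
          (G2S_mem _).2 (G2S_d2 i j k hij hik hjk).2, ?_⟩
        rw [cv_sub, cv_sub, G2S_cvs, G2S_cvs, G2S_cvs]; norm_num
  · rintro ⟨x, hx, rfl⟩
    rcases G2S_d3 x ((G2S_mem x).1 hx) with ⟨i, j, hij, rfl⟩ | ⟨i, j, k, hij, hik, hjk, rfl | rfl⟩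
    · left
      refine ⟨i, j, hij, ?_⟩
      rw [cv_sub, G2S_cvs, G2S_cvs]; simp
    · right
      refine ⟨i, j, k, hij, hik, hjk, 1, Or.inl rfl, ?_⟩
      rw [cv_sub, cv_sub, G2S_cvs, G2S_cvs, G2S_cvs]; norm_num
    · right
      refine ⟨i, j, k, hij, hik, hjk, -1, Or.inr rfl, ?_⟩
      rw [cv_sub, cv_sub, G2S_cvs, G2S_cvs, G2S_cvs]; norm_num

theorem G2S_e1 : ∀ x ∈ G2S_L, -x ∈ G2S_L := by decide +kernel

theorem G2S_e2 : (0 : Vec 3) ∉ G2S_L := by decide +kernel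

theorem G2S_e3 : (![-1, 0, 1] : Vec 3) ∈ G2S_L ∧ (![-2, 1, 1] : Vec 3) ∈ G2S_L ∧
    (![-1, 0, 1] - ![-2, 1, 1] : Vec 3) ∈ G2S_L := by decide +kernel

theorem G2S_e4 : ∀ z ∈ G2S_L, (![-2, 1, 1] - z : Vec 3) ∈ G2S_L → z ≠ ![-1, 0, 1] →
    (![-1, 0, 1] - z : Vec 3) ∉ G2S_L →
    ∃ v ∈ G2S_L, (![-1, 0, 1] - v : Vec 3) ∈ G2S_L ∧ z - v ∈ G2S_L ∧ v ≠ ![-2, 1, 1] := by
  decide +kernel

theorem G2S_f1 : ∀ a ∈ G2S_L, ∀ b ∈ G2S_L, a ≠ b → a + b ≠ 0 → a + b ∉ G2S_L → a - b ∉ G2S_L →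
    ∃ y ∈ G2S_L, dp y y = 2 ∧ a + b = y + y := by
  decide +kernel

theorem G2S_f2 : ∀ y ∈ G2S_L, dp y y = 2 → ∃ a ∈ G2S_L, ∃ b ∈ G2S_L, a ≠ b ∧ a + b ≠ 0 ∧
    a + b ∉ G2S_L ∧ a - b ∉ G2S_L ∧ b - a ∉ G2S_L ∧ y + y = a + b := by
  decide +kernel

/-- strongly orthogonal pairs -/
def G2S_so (a b : Vec 3) : Prop := a ≠ b ∧ a + b ≠ 0 ∧ a + b ∉ G2S_L ∧ a - b ∉ G2S_L

instance (a b : Vec 3) : Decidable (G2S_so a b) := by unfold G2S_so; infer_instance

theorem G2S_f3 : ∀ a ∈ G2S_L, ∀ b ∈ G2S_L, G2S_so a b → ∀ c ∈ G2S_L, G2S_so a c →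
    ¬ G2S_so b c := by
  decide +kernel

theorem G2S : G2S_stmt := by
  classical
  refine ⟨fun k => ?_, ?_, ?_, ?_, ?_, ?_⟩
  · rw [G2S_roots, G2S_img]
  · rw [G2S_one, G2S_RG2, Set.ncard_coe_finset]
    decide +kernel
  · rw [G2S_one]
    refine ⟨fun x hx => ?_, ?_⟩
    · rw [G2S_mem] at hx ⊢
      exact G2S_e1 x hx
    · rw [G2S_mem]; exact G2S_e2
  · rw [G2S_one]
    refine ⟨(G2S_mem _).2 G2S_e3.1, (G2S_mem _).2 G2S_e3.2.1, (G2S_mem _).2 G2S_e3.2.2, ?_⟩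
    ext z
    simp only [Set.mem_empty_iff_false, iff_false]
    rintro ⟨h1, h2, h3, h4, h5⟩
    rw [G2S_mem] at h1 h2 h4
    obtain ⟨v, v1, v2, v3, v4⟩ := G2S_e4 z h1 h2 h3 h4
    exact v4 (h5 v ((G2S_mem _).2 v1) ((G2S_mem _).2 v2) ((G2S_mem _).2 v3))
  · intro x
    constructor
    · rintro ⟨S, hc, ⟨h1, h2⟩, rfl⟩
      obtain ⟨a, b, hab, rfl⟩ := Finset.card_eq_two.1 hc
      have ha := (G2S_mem a).1 (h1 a (by simp))
      have hb := (G2S_mem b).1 (h1 b (by simp))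
      obtain ⟨q1, q2, q3⟩ := h2 a (by simp) b (by simp) hab
      rw [G2S_mem] at q2 q3
      obtain ⟨y, hy, hy2, hy3⟩ := G2S_f1 a ha b hb hab q1 q2 q3
      refine ⟨y, (G2S_key2 y hy).1, hy2, ?_⟩
      rw [Finset.sum_pair hab, hy3]
    · rintro ⟨y, hy0, hy2, rfl⟩
      have hy : y ∈ G2S_L := (G2S_mem y).1 ⟨hy0, Or.inl hy2⟩
      obtain ⟨a, ha, b, hb, hab, q1, q2, q3, q4, q5⟩ := G2S_f2 y hy hy2
      refine ⟨{a, b}, Finset.card_pair hab, ⟨?_, ?_⟩, ?_⟩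
      · intro c hc
        rcases Finset.mem_insert.1 hc with rfl | hc
        · exact (G2S_mem _).2 ha
        · rw [Finset.mem_singleton.1 hc]; exact (G2S_mem _).2 hb
      · intro c hc d hd hcd
        rw [G2S_mem, G2S_mem]
        rcases Finset.mem_insert.1 hc with rfl | hc
        · rcases Finset.mem_insert.1 hd with rfl | hd
          · exact absurd rfl hcd
          · rw [Finset.mem_singleton.1 hd]; exact ⟨q1, q2, q3⟩
        · rw [Finset.mem_singleton.1 hc] at hcd ⊢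
          rcases Finset.mem_insert.1 hd with rfl | hd
          · rw [add_comm b d]; exact ⟨q1, q2, q4⟩
          · exact absurd (Finset.mem_singleton.1 hd).symm hcd
      · rw [Finset.sum_pair hab, q5]
  · intro k hk
    ext v
    simp only [Set.mem_empty_iff_false, iff_false]
    rintro ⟨S, hc, ⟨h1, h2⟩, -⟩
    have h3 : 2 < S.card := by omega
    obtain ⟨a, b, c, ha, hb, hc', hab, hac, hbc⟩ := Finset.two_lt_card_iff.1 h3
    have so : ∀ x ∈ S, ∀ y ∈ S, x ≠ y → G2S_so x y := by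
      intro x hx y hy hxy
      obtain ⟨q1, q2, q3⟩ := h2 x hx y hy hxy
      rw [G2S_mem] at q2 q3
      exact ⟨hxy, q1, q2, q3⟩
    exact G2S_f3 a ((G2S_mem _).1 (h1 a ha)) b ((G2S_mem _).1 (h1 b hb)) (so a ha b hb hab)
      c ((G2S_mem _).1 (h1 c hc')) (so a ha c hc' hac) (so b hb c hc' hbc)

end Pool.Agent.SOL
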