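import Pool.Agent.helper1.SOL.SpecN

/-!
# Row `sol:NEB`
-/

set_option autoImplicit false

namespace Pool.Agent.SOL

open Pool.Agent.helper54.SOG Finset

open scoped BigOperators

theorem NEB_even {n : ℕ} (x : Vec n) (h2 : ∀ i, |x i| ≤ 2) (h1 : cnt x 1 = 0) (i : Fin n) :
    (2 : ℤ) ∣ x i := by
  have hne : |x i| ≠ 1 := by
    intro h
    unfold cnt at h1
    have : i ∈ (univ.filter fun i => |x i| = 1) := by simp [h]
    rw [Finset.card_eq_zero] at h1
    rw [h1] at this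
    simp at this
  have hb := abs_le.1 (h2 i)
  have h3 : x i ≠ 1 := fun h => hne (by rw [h]; rfl)
  have h4 : x i ≠ -1 := fun h => hne (by rw [h]; rfl)
  omega

theorem NEB_four {n : ℕ} (x y : Vec n) (hx : ∀ i, (2 : ℤ) ∣ x i) (hy : ∀ i, (2 : ℤ) ∣ y i) :
    (4 : ℤ) ∣ dp x y := by
  unfold dp
  apply Finset.dvd_sum
  intro i _
  have := mul_dvd_mul (hx i) (hy i)
  norm_num at this
  exact this

theorem NEB_co (a b : ℤ) (ha : |a| ≤ 2) (hb : |b| ≤ 2) (hc : |a - b| ≤ 2) :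
    |a| + |b| + |a - b| ≤ 4 := by
  rcases abs_cases a with ⟨h1, h1'⟩ | ⟨h1, h1'⟩ <;> rcases abs_cases b with ⟨h2, h2'⟩ | ⟨h2, h2'⟩ <;>
    rcases abs_cases (a - b) with ⟨h3, h3'⟩ | ⟨h3, h3'⟩ <;> omega

theorem NEB (hBTY : BTY_stmt) (hSHB : SHB_stmt) : NEB_stmt := by
  obtain ⟨hB, hC, hd, -⟩ := hBTY
  refine ⟨?_, ?_⟩
  · intro n k x y hk hx hy hxy
    obtain ⟨x1, x2, x3⟩ := (hB n k x).1 hx
    obtain ⟨y1, y2, y3⟩ := (hB n k y).1 hy
    obtain ⟨z1, z2, z3⟩ := (hB n k (x - y)).1 hxy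
    have dx := hd n x x1
    have dy := hd n y y1
    have dz := hd n (x - y) z1
    obtain ⟨s1, s2, -, -⟩ := hSHB n k x y hk hx hy hxy
    have hkn : k ≤ n := by omega
    by_contra hcon
    have hn : n = k ∧ (k % 2 = 1 ∨ k % 4 = 2) := by omega
    obtain ⟨hn, h | h⟩ := hn
    · have ex : 4 * cnt x 2 + cnt x 1 + 1 = 2 * k := by omega
      have ey : 4 * cnt y 2 + cnt y 1 + 1 = 2 * k := by omega
      have ez : 4 * cnt (x - y) 2 + cnt (x - y) 1 + 1 = 2 * k := by omega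
      have e1 : dp x x ≠ 2 * k := by rw [dx]; omega
      have e2 : dp y y ≠ 2 * k := by rw [dy]; omega
      have e3 : dp (x - y) (x - y) ≠ 2 * k := by rw [dz]; omega
      exact e3 (s1.2 ⟨fun h => absurd h e1, fun h => absurd h e2⟩)
    · have ex : cnt x 1 = 0 ∧ 4 * cnt x 2 = 2 * k := by omega
      have ey : cnt y 1 = 0 ∧ 4 * cnt y 2 = 2 * k := by omega
      have e1 : dp x x = 2 * k := by rw [dx]; omega
      have e4 := s2 (Or.inl e1)
      have e5 := NEB_four x y (NEB_even x x1 ex.1) (NEB_even y y1 ey.1)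
      rw [e4] at e5
      omega
  · intro n k x y hx hy hxy
    have h1 : l1 x + l1 y + l1 (x - y) ≤ 4 * n := by
      unfold l1
      rw [← Finset.sum_add_distrib, ← Finset.sum_add_distrib]
      calc ∑ i, (|x i| + |y i| + |(x - y) i|) ≤ ∑ _i : Fin n, (4 : ℤ) := by
            apply Finset.sum_le_sum
            intro i _
            exact NEB_co _ _ (hx.1 i) (hy.1 i) (hxy.1 i)
        _ = 4 * n := by simp [mul_comm]
    rw [hx.2, hy.2, hxy.2] at h1
    omega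

end Pool.Agent.SOL
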